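import Mathlib
import Pool.Agent.Lib.P0479e2.Defs
import Pool.Agent.Lib.P0479e2.Defs2
import Pool.Agent.Lib.P0479e2.IsoP5

namespace Pool.Agent.Results.MP_0479e2_co.ExtremalGraphs

open Pool.Agent.Lib.P0479e2

/-- arithmetic of the bound for `n = x + 2j`, `γ = 3 + 2j` -/
lemma arith (x j : ℕ) (hx : 5 ≤ x) :
    ((x + 2 * j : ℤ) - (3 + 2 * j)) * ((x + 2 * j : ℤ) - (3 + 2 * j) + 4) + 2 * (3 + 2 * j) - 2
      < 4 * (((x - 1) / 2 * (x / 2) + j : ℕ) : ℤ) + 4 ∧
    4 * (((x - 1) / 2 * (x / 2) + j : ℕ) : ℤ) ≤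
    ((x + 2 * j : ℤ) - (3 + 2 * j)) * ((x + 2 * j : ℤ) - (3 + 2 * j) + 4)
      + 2 * (3 + 2 * j) - 2 := by
  rcases Nat.even_or_odd' x with ⟨m, rfl | rfl⟩
  · have h1 : (2 * m - 1) / 2 = m - 1 := by omega
    have h2 : 2 * m / 2 = m := by omega
    obtain ⟨m', rfl⟩ : ∃ m', m = m' + 1 := ⟨m - 1, by omega⟩
    rw [h1, h2, Nat.add_sub_cancel]
    push_cast
    constructor <;> nlinarith
  · have h1 : (2 * m + 1 - 1) / 2 = m := by omega
    have h2 : (2 * m + 1) / 2 = m := by omega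
    rw [h1, h2]
    push_cast
    constructor <;> nlinarith

/-- **Q2, full answer.** Let `γ ≥ 3` be odd.  Bipartite graphs of order `n` without isolated
vertices and with total domination number `γ` exist exactly when `n ≥ γ + 2`.  For such `n`, the
graph `G(n-γ+3) ∪ ((γ-3)/2) K₂` is one of them, it has the maximum size, and this maximum equals
`⌊((n-γ)(n-γ+4) + 2γ - 2)/4⌋`; but it is the only extremal graph (up to isomorphism) exactly when
`n = γ + 2`. -/
theorem result (n γ : ℕ) (hodd : Odd γ) (h3 : 3 ≤ γ) :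
    ((∃ (V : Type) (_ : Fintype V) (G : SimpleGraph V), Admissible G n γ) ↔ γ + 2 ≤ n) ∧
    (γ + 2 ≤ n →
      IsExtremal (graphGK (n - γ + 3) ((γ - 3) / 2)) n γ ∧
      ((graphGK (n - γ + 3) ((γ - 3) / 2)).edgeSet.ncard : ℤ)
        = ⌊((((n : ℚ) - γ) * ((n : ℚ) - γ + 4) + 2 * γ - 2) / 4 : ℚ)⌋ ∧
      ((∀ (V : Type) [Fintype V] (G : SimpleGraph V), IsExtremal G n γ →
          Nonempty (G ≃g graphGK (n - γ + 3) ((γ - 3) / 2))) ↔ n = γ + 2)) := by
  classical
  obtain ⟨i, hi⟩ := hodd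
  obtain ⟨j, rfl⟩ : ∃ j, γ = 3 + 2 * j := ⟨i - 1, by omega⟩
  have hj : (3 + 2 * j - 3) / 2 = j := by omega
  have hodd' : Odd (3 + 2 * j) := ⟨j + 1, by ring⟩
  -- lower bound for the order
  have hlow : ∀ (V : Type) [Fintype V] (G : SimpleGraph V), Admissible G n (3 + 2 * j) →
      3 + 2 * j + 2 ≤ n := by
    intro V _ G hG
    obtain ⟨h1, h2, h3', h4⟩ := hG
    obtain ⟨X, Y, S, hD⟩ := exists_data G h2 h3' (by rw [h4]; exact hodd') (by rw [h4]; omega)
    have := hD.order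
    omega
  -- existence
  have hex : ∀ m, 3 + 2 * j + 2 ≤ m →
      Admissible (graphGK (m - (3 + 2 * j) + 3) j) m (3 + 2 * j) := by
    intro m hm
    have h := graphGK_admissible (m - (3 + 2 * j) + 3) j (by omega)
    rwa [show m - (3 + 2 * j) + 3 + 2 * j = m by omega] at h
  refine ⟨⟨fun ⟨V, hV, G, hG⟩ => hlow V G hG, fun h => ⟨_, inferInstance, _, hex n h⟩⟩, ?_⟩
  intro hn
  rw [hj]
  obtain ⟨x, hx, hx5⟩ : ∃ x, n = x + 2 * j ∧ 5 ≤ x := ⟨n - 2 * j, by omega, by omega⟩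
  have hxn : n - (3 + 2 * j) + 3 = x := by omega
  have har := arith x j hx5
  have hsize := graphGK_size x j
  -- every admissible graph has at most this size
  have hmax : ∀ (W : Type) [Fintype W] (H : SimpleGraph W), Admissible H n (3 + 2 * j) →
      H.edgeSet.ncard ≤ (graphGK x j).edgeSet.ncard := by
    intro W _ H hH
    obtain ⟨h1, h2, h3', h4⟩ := hH
    have h5 := four_mul_size_le H h2 h3' (by rw [h4]; exact hodd') (by rw [h4]; omega)
    rw [h1, h4, hx] at h5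
    push_cast at h5
    rw [hsize]
    have h6 : (4 * H.edgeSet.ncard : ℤ) < 4 * (((x - 1) / 2 * (x / 2) + j : ℕ) : ℤ) + 4 :=
      lt_of_le_of_lt h5 har.1
    have h7 : (H.edgeSet.ncard : ℤ) < (((x - 1) / 2 * (x / 2) + j : ℕ) : ℤ) + 1 := by linarith
    have h8 : H.edgeSet.ncard < ((x - 1) / 2 * (x / 2) + j) + 1 := by exact_mod_cast h7
    omega
  have hadm : Admissible (graphGK x j) n (3 + 2 * j) := by
    have := hex n hn
    rwa [hxn] at this
  rw [hxn]
  refine ⟨⟨hadm, hmax⟩, ?_, ?_⟩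
  · symm
    rw [Int.floor_eq_iff, hsize, hx]
    obtain ⟨har1, har2⟩ := har
    have har1' : ((((x + 2 * j : ℤ) - (3 + 2 * j)) * ((x + 2 * j : ℤ) - (3 + 2 * j) + 4)
        + 2 * (3 + 2 * j) - 2 : ℤ) : ℚ) < ((4 * (((x - 1) / 2 * (x / 2) + j : ℕ) : ℤ) + 4 : ℤ) : ℚ) :=
      by exact_mod_cast har1
    have har2' : ((4 * (((x - 1) / 2 * (x / 2) + j : ℕ) : ℤ) : ℤ) : ℚ) ≤
        ((((x + 2 * j : ℤ) - (3 + 2 * j)) * ((x + 2 * j : ℤ) - (3 + 2 * j) + 4)
        + 2 * (3 + 2 * j) - 2 : ℤ) : ℚ) := by exact_mod_cast har2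
    push_cast at har1' har2' ⊢
    rw [le_div_iff₀ (by norm_num), div_lt_iff₀ (by norm_num)]
    constructor <;> linarith
  · constructor
    · intro huniq
      by_contra hne
      have hx6 : 6 ≤ x := by omega
      have halt := alt_admissible x j hx6
      have haltsize := alt_size x j hx6
      have hext : IsExtremal (avoid (altMap (x / 2) ((x - 1) / 2 + 1) (by omega)) ⊕g copiesK2 j)
          n (3 + 2 * j) := by
        refine ⟨hx.symm ▸ halt, ?_⟩
        intro W _ H hH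
        rw [haltsize, ← hsize]
        exact hmax W H hH
      obtain ⟨e⟩ := huniq _ _ hext
      exact graphGK_not_pend x j hx6 ((alt_pend x j hx6).iso e)
    · intro hn2 V _ G hG
      have hx' : x = 5 := by omega
      subst hx'
      obtain ⟨⟨h1, h2, h3', h4⟩, -⟩ := hG
      obtain ⟨X, Y, S, hD⟩ := exists_data G h2 h3' (by rw [h4]; exact hodd') (by rw [h4]; omega)
      obtain ⟨e⟩ := hD.iso_graphGK (by rw [h1, h4]; exact hn2) j h4
      exact ⟨e.symm⟩

end Pool.Agent.Results.MP_0479e2_co.ExtremalGraphs
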