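import Mathlib
import Pool.Agent.Lib.P0479e2.Basic

namespace Pool.Agent.Results.MP_0479e2_co.OddBound

open Pool.Agent.Lib.P0479e2

/-- **Q1, full answer (the bound is true).** Every bipartite graph without isolated vertices, of
order `n`, whose total domination number `γ` is odd and at least `3`, has at most
`⌊((n-γ)(n-γ+4) + 2γ - 2)/4⌋` edges. -/
theorem result {V : Type*} [Fintype V] (G : SimpleGraph V) (hbip : G.IsBipartite)
    (hiso : ∀ v : V, ∃ w : V, G.Adj v w) (hodd : Odd (totalDomNumber G))
    (h3 : 3 ≤ totalDomNumber G) :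
    (G.edgeSet.ncard : ℤ) ≤
      ⌊((((Fintype.card V : ℚ) - totalDomNumber G) *
          ((Fintype.card V : ℚ) - totalDomNumber G + 4)
        + 2 * totalDomNumber G - 2) / 4 : ℚ)⌋ := by
  have h := four_mul_size_le G hbip hiso hodd h3
  rw [Int.le_floor, le_div_iff₀ (by norm_num)]
  have h' : ((4 * G.edgeSet.ncard : ℤ) : ℚ) ≤
      ((((Fintype.card V : ℤ) - totalDomNumber G) * ((Fintype.card V : ℤ) - totalDomNumber G + 4)
        + 2 * totalDomNumber G - 2 : ℤ) : ℚ) := by exact_mod_cast h
  push_cast at h' ⊢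
  linarith

end Pool.Agent.Results.MP_0479e2_co.OddBound
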